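import Pool.Agent.Helper45.TW.Defs
import Pool.Agent.Helper17.FF.PicDiv
import Pool.Agent.SC.CoverLevels

/-!
# Project TW, block KX1: the classes of order a power of two are divisible
-/

set_option autoImplicit false

namespace Pool.Agent.TOW

open VC IntermediateField NumberField IsDedekindDomain Pool.Agent.SC Pool.Agent.L Pool.Agent.M

/-- a root of unity is a constant -/
theorem root_const62 {E U : Type} [Field E] [IsAlgClosed E] [Field U] [Algebra E U] {n : ℕ}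
    (hn : 0 < n) {ζ : U} (hζ : ζ ^ n = 1) : ∃ e : E, algebraMap E U e = ζ := by
  have h1 : IsIntegral E ζ := by
    refine ⟨Polynomial.X ^ n - Polynomial.C 1, Polynomial.monic_X_pow_sub_C _ hn.ne', ?_⟩
    simp [hζ]
  have h2 : (minpoly E ζ).degree = 1 :=
    IsAlgClosed.degree_eq_one_of_irreducible E (minpoly.irreducible h1)
  exact minpoly.mem_range_of_degree_eq_one E ζ h2

/-- divisibility of the classes, for any maximal unramified extension -/
theorem div_cover62 {E U : Type} [Field E] [IsAlgClosed E] [CharZero E] [Field U] [Algebra E U]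
    {M : IntermediateField E U} (hc : IsCover M) {N d : ℕ} (hN : 0 < N) (hd : 0 < d) {w : U}
    (hw0 : w ≠ 0) (hw : w ^ N ∈ M) :
    ∃ u m : U, u ≠ 0 ∧ m ∈ M ∧ m ≠ 0 ∧ u ^ d = w * m := by
  classical
  have ff := hc.ff
  obtain ⟨g, hg⟩ : ∃ g : M, (g : U) = w ^ N := ⟨⟨w ^ N, hw⟩, rfl⟩
  have hg0 : g ≠ 0 := by
    intro h0
    rw [h0] at hg
    exact pow_ne_zero N hw0 hg.symm
  have hN0' : ((N : ℕ) : ℤ) ≠ 0 := by exact_mod_cast hN.ne'
  have hdv : ∀ P : Place E M, (N : ℤ) ∣ ord P.ring g := fun P =>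
    hc.dvd_ord le_rfl ff hg0 hg.symm P
  choose e he using hdv
  have hesupp : {P : Place E M | e P ≠ 0}.Finite := by
    refine (FF.finite_support_ord ff hg0).subset fun P hP h0 => hP ?_
    rw [he P] at h0
    exact (mul_eq_zero.1 h0).resolve_left hN0'
  let D : Place E M →₀ ℤ := Finsupp.ofSupportFinite e hesupp
  have hD : ∀ P, D P = e P := fun P => rfl
  have hDdeg : (D.sum fun _ m => m) = 0 := by
    have h1 : FF.dv ff g = ((N : ℕ) : ℤ) • D := by
      ext P
      rw [Finsupp.smul_apply, FF.dv_apply, hD, he P, smul_eq_mul]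
    have h2 := FF.deg_dv ff hg0
    rw [h1, map_zsmul, FF.deg_eq, smul_eq_mul] at h2
    exact (mul_eq_zero.1 h2).resolve_left hN0'
  obtain ⟨D', c, hc0, hcD⟩ := FF.picDiv ff d hd D hDdeg
  have hc0' : (c : U) ≠ 0 := fun h0 => hc0 (Subtype.ext h0)
  have hg1 : g / c ^ N ≠ 0 := div_ne_zero hg0 (pow_ne_zero _ hc0)
  obtain ⟨v, hv⟩ := hc.exists_root ff (g := g / c ^ N) hg1 (n := d * N) (Nat.mul_pos hd hN) (by
    intro P
    refine ⟨D' P, ?_⟩
    rw [FF.ord_div ff P hg0 (pow_ne_zero _ hc0), FF.ord_pow ff P hc0, he P, ← hD P, hcD P]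
    push_cast
    ring)
  have hgU : ((g / c ^ N : M) : U) = w ^ N / (c : U) ^ N := by
    rw [← hg]
    rfl
  rw [hgU, ← div_pow] at hv
  have hwc : w / (c : U) ≠ 0 := div_ne_zero hw0 hc0'
  have hv0 : v ≠ 0 := by
    rintro rfl
    rw [zero_pow (Nat.mul_pos hd hN).ne'] at hv
    exact pow_ne_zero _ hwc hv.symm
  -- the root of unity
  obtain ⟨ζ, hζ⟩ := root_const62 (E := E) hN (ζ := v ^ d / (w / (c : U))) (by
    rw [div_pow, ← pow_mul, hv]
    exact div_self (pow_ne_zero _ hwc))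
  have hζ0 : ζ ≠ 0 := by
    rintro rfl
    rw [map_zero] at hζ
    exact div_ne_zero (pow_ne_zero d hv0) hwc hζ.symm
  obtain ⟨ξ, hξ⟩ := IsAlgClosed.exists_pow_nat_eq ζ hd
  have hξ0 : algebraMap E U ξ ≠ 0 := by
    intro h0
    have h1 : ξ = 0 := (map_eq_zero _).1 h0
    rw [h1, zero_pow hd.ne'] at hξ
    exact hζ0 hξ.symm
  refine ⟨v / algebraMap E U ξ, (c : U)⁻¹, div_ne_zero hv0 hξ0, inv_mem c.2, inv_ne_zero hc0', ?_⟩
  rw [div_pow, ← map_pow, hξ, hζ, ← div_eq_mul_inv, div_div_cancel₀ (pow_ne_zero d hv0)]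

/-- BLOCK KX1 -/
theorem kX1 : StmtKX1 := by
  intro k K0 E U _ _ _ _ _ _ _ _ _ _ _ _ h r G j w hw
  have : IsAlgClosed E := G.clE
  have : CharZero E := charZero_of_injective_algebraMap (algebraMap k E).injective
  obtain ⟨u, m, hu0, hm, hm0, hum⟩ := div_cover62 G.cover (Nat.two_pow_pos j) two_pos hw.1 hw.2
  refine ⟨u, m, ⟨hu0, ?_⟩, hm, hm0, hum⟩
  rw [pow_succ', pow_mul, hum, mul_pow]
  exact mul_mem hw.2 (pow_mem hm _)

end Pool.Agent.TOW
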